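import Mathlib
import Pool.Agent.H691R3.Main2
import Pool.Agent.H691R3.Class

set_option autoImplicit false

/-!
# The sharp upper bound for the number of points with small truncated counting function
-/

namespace Pool.Agent.R365.SH

open NumberField IsDedekindDomain Finset Pool.Agent.H691R3

variable {K : Type} [Field K] [NumberField K]

/-- the weight of the blocks of a point is at most the excess -/
theorem blocks_upper {q : ℕ} (T : Set (HeightOneSpectrum (𝓞 K))) (α : Fin q → K × K)
    (hα0 : ∀ l, α l ≠ 0) (Sp : Finset (Pl K)) : ∃ C2 : ℝ, 0 ≤ C2 ∧ ∀ x : K, Off α x →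
      ∀ B : Finset (Pl K × Fin q × ℕ), Set.InjOn (fun a : Pl K × Fin q × ℕ => a.1) B →
        (∀ a ∈ B, wt a ≤ lam a.1 (aff x) (α a.2.1)) →
        ∑ a ∈ B, (wt a - cst Sp a) ≤ q * hr (aff x) - NTc T α x + C2 := by
  classical
  have hloss0 := lossK_nonneg K
  have hLuS : 0 ≤ ∑ v ∈ Sp, Lu v := Finset.sum_nonneg fun v _ => (Lu_pos v).le
  refine ⟨|∑ l : Fin q, hr (α l)| + q * lossK K + ∑ v ∈ Sp, Lu v, by positivity, ?_⟩
  intro x hx B hinj hB
  have hax := aff_ne_zero x
  set Vf : Finset (HeightOneSpectrum (𝓞 K)) :=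
    (B.image fun a => a.1).toRight ∪ (Sp.toRight ∪
      Finset.univ.biUnion (fun l : Fin q => (lamF_support_finite hax (hα0 l) (hx l)).toFinset))
    with hVf
  have hVf0 : ∀ v, v ∉ Vf → ∀ l, lamA (fv v) (aff x) (α l) = 0 := by
    intro v hv l
    by_contra hcon
    apply hv
    rw [hVf, Finset.mem_union, Finset.mem_union, Finset.mem_biUnion]
    right; right
    exact ⟨l, Finset.mem_univ l, by rw [Set.Finite.mem_toFinset]; exact hcon⟩
  set P0 : Finset (Pl K) := (Finset.univ : Finset (InfinitePlace K)).disjSum Vf with hP0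
  have hP0mem : ∀ v : Pl K, (∀ u : HeightOneSpectrum (𝓞 K), v = Sum.inr u → u ∈ Vf) → v ∈ P0 := by
    intro v hv
    rcases v with w | u
    · rw [hP0, Finset.inl_mem_disjSum]; exact Finset.mem_univ w
    · rw [hP0, Finset.inr_mem_disjSum]; exact hv u rfl
  have hBP : ∀ a ∈ B, a.1 ∈ P0 := by
    intro a ha
    refine hP0mem _ fun u hu => ?_
    rw [hVf, Finset.mem_union]
    left
    rw [Finset.mem_toRight, Finset.mem_image]
    exact ⟨a, ha, hu⟩
  have hSpP : Sp ⊆ P0 := by
    intro v hv
    refine hP0mem _ fun u hu => ?_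
    rw [hVf, Finset.mem_union, Finset.mem_union]
    right; left
    rw [Finset.mem_toRight, ← hu]
    exact hv
  -- the sum of all local heights
  have hsum : (q : ℝ) * hr (aff x) + ∑ l : Fin q, hr (α l) =
      ∑ v ∈ P0, ∑ l : Fin q, lam v (aff x) (α l) := by
    rw [Finset.sum_comm]
    have h1 : ∀ l : Fin q, ∑ v ∈ P0, lam v (aff x) (α l) = hr (aff x) + hr (α l) := by
      intro l
      rw [← sum_lam hax (hα0 l) (hx l), hP0, Finset.sum_disjSum]
      congr 1
      symm
      refine finsum_eq_sum_of_support_subset _ ?_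
      intro v hv
      by_contra hcon
      exact hv (hVf0 v (by exact_mod_cast hcon) l)
    rw [Finset.sum_congr rfl (fun l _ => h1 l), Finset.sum_add_distrib, Finset.sum_const,
      Finset.card_univ, Fintype.card_fin, nsmul_eq_mul]
  -- the truncated counting function
  set mn : Pl K → ℝ := fun v => Sum.elim (fun _ => (0 : ℝ))
    (fun u : HeightOneSpectrum (𝓞 K) => ∑ l : Fin q,
      min (lamA (fv u) (aff x) (α l)) (Real.log (Nv u))) v with hmn
  have hmn0 : ∀ u : HeightOneSpectrum (𝓞 K), 0 ≤ mn (Sum.inr u) := by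
    intro u
    refine Finset.sum_nonneg fun l _ => le_min ?_ (log_Nv_pos _).le
    exact lamF_nonneg u hax (hα0 l) (hx l)
  have hNT : NTc T α x ≤ ∑ v ∈ P0, mn v := by
    have h1 : NTc T α x = ∑ v ∈ Vf.filter (fun v => v ∉ T), mn (Sum.inr v) := by
      unfold NTc
      simp only [← Set.mem_compl_iff]
      rw [finsum_mem_eq_sum_of_inter_support_eq (t := Vf.filter (fun v => v ∈ Tᶜ))]
      · exact Finset.sum_congr rfl fun v _ => rfl
      ext v
      simp only [Set.mem_compl_iff, Set.mem_inter_iff, Function.mem_support, Finset.coe_filter,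
        Set.mem_ofPred_eq]
      constructor
      · rintro ⟨hv1, hv2⟩
        refine ⟨⟨?_, hv1⟩, hv2⟩
        by_contra hcon
        apply hv2
        refine Finset.sum_eq_zero fun l _ => ?_
        rw [hVf0 v hcon l]
        exact min_eq_left (log_Nv_pos v).le
      · rintro ⟨⟨_, hv1⟩, hv2⟩
        exact ⟨hv1, hv2⟩
    rw [h1, hP0, Finset.sum_disjSum]
    have h2 : ∑ w : InfinitePlace K, mn (Sum.inl w) = 0 := Finset.sum_eq_zero fun w _ => rfl
    rw [h2, zero_add]
    exact Finset.sum_le_sum_of_subset_of_nonneg (Finset.filter_subset _ _) fun v _ _ => hmn0 v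
  -- blocks by places
  have hbl : ∑ a ∈ B, (wt a - cst Sp a) = ∑ v ∈ P0, ∑ a ∈ B with a.1 = v, (wt a - cst Sp a) :=
    (Finset.sum_fiberwise_of_maps_to hBP _).symm
  have hlow : ∀ v l, -loss v ≤ lam v (aff x) (α l) := by
    intro v l
    exact lam_ge v hax (hα0 l) (hx l)
  have key : ∀ v ∈ P0, ∑ a ∈ B with a.1 = v, (wt a - cst Sp a) + mn v ≤
      ∑ l : Fin q, lam v (aff x) (α l) + (q * loss v + if v ∈ Sp then Lu v else 0) := by
    intro v _
    have hq0 : (0 : ℝ) ≤ q := Nat.cast_nonneg _
    have hSp0 : 0 ≤ (if v ∈ Sp then Lu v else 0) := by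
      split_ifs
      · exact (Lu_pos v).le
      · exact le_rfl
    -- the sum over the labels
    have hA : ∀ l0 : Fin q, mn v + max 0 (lam v (aff x) (α l0) - Lu v) ≤
        ∑ l : Fin q, lam v (aff x) (α l) + q * loss v := by
      intro l0
      rcases v with w | u
      · have h1 : ∑ l : Fin q, lam (Sum.inl w : Pl K) (aff x) (α l) + q * loss (Sum.inl w : Pl K) =
            ∑ l : Fin q, (lam (Sum.inl w : Pl K) (aff x) (α l) + loss (Sum.inl w : Pl K)) := by
          rw [Finset.sum_add_distrib, Finset.sum_const, Finset.card_univ, Fintype.card_fin,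
            nsmul_eq_mul]
        rw [h1]
        have h2 : lam (Sum.inl w : Pl K) (aff x) (α l0) + loss (Sum.inl w : Pl K) ≤
            ∑ l : Fin q, (lam (Sum.inl w : Pl K) (aff x) (α l) + loss (Sum.inl w : Pl K)) :=
          Finset.single_le_sum (f := fun l => lam (Sum.inl w : Pl K) (aff x) (α l) +
            loss (Sum.inl w : Pl K)) (fun l _ => by have := hlow (Sum.inl w) l; linarith)
            (Finset.mem_univ l0)
        have h3 : mn (Sum.inl w : Pl K) = 0 := rfl
        have h4 := Lu_pos (Sum.inl w : Pl K)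
        have h5 := hlow (Sum.inl w) l0
        have h6 := loss_nonneg (Sum.inl w : Pl K)
        rw [h3, zero_add]
        exact max_le (by linarith) (by linarith)
      · have h1 : loss (Sum.inr u : Pl K) = 0 := rfl
        rw [h1, mul_zero, add_zero]
        have h2 : ∑ l : Fin q, lam (Sum.inr u : Pl K) (aff x) (α l) = mn (Sum.inr u) +
            ∑ l : Fin q, (lam (Sum.inr u : Pl K) (aff x) (α l) -
              min (lamA (fv u) (aff x) (α l)) (Real.log (Nv u))) := by
          rw [Finset.sum_sub_distrib]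
          have : mn (Sum.inr u) = ∑ l : Fin q,
            min (lamA (fv u) (aff x) (α l)) (Real.log (Nv u)) := rfl
          rw [this]
          ring
        rw [h2]
        have h3 : lam (Sum.inr u : Pl K) (aff x) (α l0) -
              min (lamA (fv u) (aff x) (α l0)) (Real.log (Nv u)) ≤
            ∑ l : Fin q, (lam (Sum.inr u : Pl K) (aff x) (α l) -
              min (lamA (fv u) (aff x) (α l)) (Real.log (Nv u))) :=
          Finset.single_le_sum (f := fun l => lam (Sum.inr u : Pl K) (aff x) (α l) -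
              min (lamA (fv u) (aff x) (α l)) (Real.log (Nv u)))
            (fun l _ => by
              have h4 : lam (Sum.inr u : Pl K) (aff x) (α l) = lamA (fv u) (aff x) (α l) := rfl
              have h5 := min_le_left (lamA (fv u) (aff x) (α l)) (Real.log (Nv u))
              linarith) (Finset.mem_univ l0)
        have h4 : lam (Sum.inr u : Pl K) (aff x) (α l0) = lamA (fv u) (aff x) (α l0) := rfl
        have h5 : Lu (Sum.inr u : Pl K) = Real.log (Nv u) := rfl
        have h6 := min_le_left (lamA (fv u) (aff x) (α l0)) (Real.log (Nv u))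
        have h7 := min_le_right (lamA (fv u) (aff x) (α l0)) (Real.log (Nv u))
        have h8 : max 0 (lam (Sum.inr u : Pl K) (aff x) (α l0) - Lu (Sum.inr u : Pl K)) ≤
            lam (Sum.inr u : Pl K) (aff x) (α l0) -
              min (lamA (fv u) (aff x) (α l0)) (Real.log (Nv u)) :=
          max_le (by linarith) (by linarith)
        linarith
    rcases (B.filter fun a => a.1 = v).eq_empty_or_nonempty with he | ⟨a, ha⟩
    · rw [he, Finset.sum_empty, zero_add]
      rcases v with w | u
      · have h1 : ∑ l : Fin q, -loss (Sum.inl w : Pl K) ≤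
            ∑ l : Fin q, lam (Sum.inl w : Pl K) (aff x) (α l) :=
          Finset.sum_le_sum fun l _ => hlow (Sum.inl w) l
        rw [Finset.sum_const, Finset.card_univ, Fintype.card_fin, nsmul_eq_mul] at h1
        have h3 : mn (Sum.inl w : Pl K) = 0 := rfl
        linarith
      · have h1 : mn (Sum.inr u) ≤ ∑ l : Fin q, lam (Sum.inr u : Pl K) (aff x) (α l) :=
          Finset.sum_le_sum fun l _ => min_le_left _ _
        have h2 : loss (Sum.inr u : Pl K) = 0 := rfl
        rw [h2, mul_zero]
        linarith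
    · have haB := (Finset.mem_filter.mp ha).1
      have hav := (Finset.mem_filter.mp ha).2
      have hsing : (B.filter fun a => a.1 = v) = {a} := by
        refine Finset.eq_singleton_iff_unique_mem.mpr ⟨ha, fun b hb => ?_⟩
        have hbB := (Finset.mem_filter.mp hb).1
        have hbv := (Finset.mem_filter.mp hb).2
        exact hinj hbB haB (hbv.trans hav.symm)
      rw [hsing, Finset.sum_singleton]
      have h1 := hA a.2.1
      have h2 := hB a haB
      rw [hav] at h2
      have h3 := le_max_right 0 (lam v (aff x) (α a.2.1) - Lu v)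
      have h4 : -(cst Sp a) ≤ -(Lu v) + (if v ∈ Sp then Lu v else 0) := by
        unfold cst
        rw [hav]
        split_ifs <;> linarith
      linarith
  have hfin := Finset.sum_le_sum key
  rw [Finset.sum_add_distrib, ← hbl, Finset.sum_add_distrib, ← hsum, Finset.sum_add_distrib,
    ← Finset.mul_sum] at hfin
  have hl : ∑ v ∈ P0, loss v = lossK K := by
    rw [hP0, Finset.sum_disjSum]
    have h2 : ∑ u ∈ Vf, loss (Sum.inr u : Pl K) = 0 := Finset.sum_eq_zero fun u _ => rfl
    rw [h2, add_zero]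
    rfl
  have hs : ∑ v ∈ P0, (if v ∈ Sp then Lu v else 0) = ∑ v ∈ Sp, Lu v := by
    rw [← Finset.sum_filter, Finset.filter_mem_eq_inter, Finset.inter_eq_right.mpr hSpP]
  rw [hl, hs] at hfin
  have hab := le_abs_self (∑ l : Fin q, hr (α l))
  linarith

/-- the sharp count of the points which are not exceptional -/
theorem main_upper {q : ℕ} (hq : 3 ≤ q) (T : Set (HeightOneSpectrum (𝓞 K))) (hT : T.Finite)
    (α : Fin q → K × K) (hα0 : ∀ l, α l ≠ 0)
    (hα : ∀ i j, i ≠ j → wg (α i) (α j) ≠ 0)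
    (c : ℝ) (hc0 : 0 ≤ c) (hc1 : c < 1 - 2 / q) :
    ∃ C : ℝ, 0 ≤ C ∧ ∀ Λ t : ℝ, 0 ≤ Λ → ∀ E : Finset K,
      (∀ x ∈ E, Off α x ∧ NTc T α x ≤ Λ ∧ (q - 1 / 4) * hr (aff x) ≤ NTc T α x ∧
        t ≤ q * hr (aff x) - NTc T α x) →
      (E.card : ℝ) ≤ C * (Real.exp (1 / q * Λ) + Real.exp (2 / q * Λ - c * t)) := by
  classical
  have hqR : (3 : ℝ) ≤ q := by exact_mod_cast hq
  have hq0 : (0 : ℝ) < q := by linarith
  obtain ⟨Sp, _, _, C1, hC1, hB⟩ := exists_blocks2 (by omega : 0 < q) T hT α hα0 hα
  obtain ⟨C2, hC2, hup⟩ := blocks_upper T α hα0 Sp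
  set θ : ℝ := 1 - 2 / q - c with hθ
  have hθ0 : 0 < θ := by rw [hθ]; linarith
  have hq2 : 0 < 2 / (q : ℝ) := by positivity
  have hθ1 : θ ≤ 1 := by rw [hθ]; linarith
  set η : ℝ := θ / 2 with hη
  have hη0 : 0 < η := by rw [hη]; linarith
  have hη1 : η ≤ 1 / 2 := by rw [hη]; linarith
  obtain ⟨F0, hF0⟩ := weights2_bounded Sp q hη0
  set C3 : ℝ := 32 * Real.exp (3 * lossK K) with hC3
  have hC30 : 0 ≤ C3 := by positivity
  refine ⟨C3 * Real.exp F0 * Real.exp (2 * C2 + 2 * C1 / q + c * C1), by positivity, ?_⟩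
  intro Λ t hΛ E hE
  have hex : ∀ x : K, ∃ B : Finset (Pl K × Fin q × ℕ), x ∈ E →
      Set.InjOn (fun a : Pl K × Fin q × ℕ => a.1) B ∧
        (∀ a ∈ B, wt a ≤ lam a.1 (aff x) (α a.2.1)) ∧
        (∀ a ∈ B, 1 ≤ a.2.2 ∧ cst Sp a ≤ wt a / 2) ∧
        q * hr (aff x) - NTc T α x - C1 ≤ ∑ a ∈ B, (wt a - cst Sp a) := by
    intro x
    by_cases hx : x ∈ E
    · obtain ⟨B, hBl⟩ := hB x (hE x hx).1
      refine ⟨B.filter fun a => cst Sp a ≤ wt a / 2, fun _ => ⟨?_, ?_, ?_, ?_⟩⟩
      · intro a ha b hb hab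
        exact hBl.inj (Finset.mem_filter.mp ha).1 (Finset.mem_filter.mp hb).1 hab
      · intro a ha
        exact hBl.le_lam a (Finset.mem_filter.mp ha).1
      · intro a ha
        rw [Finset.mem_filter] at ha
        exact ⟨hBl.one_le a ha.1, ha.2⟩
      · refine hBl.excess.trans (le_of_eq ?_)
        refine (Finset.sum_filter_of_ne fun a ha hne => ?_).symm
        by_contra hcon
        apply hne
        rw [not_le] at hcon
        have h1 := hBl.one_le a ha
        have hL := Lu_pos a.1
        unfold cst wt at hcon ⊢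
        split_ifs at hcon ⊢ with h2
        · exfalso
          have : (0 : ℝ) ≤ (a.2.2 : ℝ) * Lu a.1 := by positivity
          linarith
        · have h3 : (a.2.2 : ℝ) < 2 := by
            by_contra h4
            rw [not_lt] at h4
            nlinarith
          have h5 : a.2.2 < 2 := by exact_mod_cast h3
          have h6 : a.2.2 = 1 := by omega
          rw [h6, Nat.cast_one, one_mul, sub_self]
    · exact ⟨∅, fun h => absurd h hx⟩
  choose D hD using hex
  have h1 : (E.card : ℝ) = ∑ D0 ∈ E.image D, ((E.filter (fun y => D y = D0)).card : ℝ) := by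
    exact_mod_cast Finset.card_eq_sum_card_image D E
  have h2 : ∀ D0 ∈ E.image D, ((E.filter (fun y => D y = D0)).card : ℝ) ≤
      C3 * Real.exp (2 * C2 + 2 * C1 / q + c * C1) *
        (Real.exp (1 / q * Λ) + Real.exp (2 / q * Λ - c * t)) * ∏ a ∈ D0, fwt2 Sp η a := by
    intro D0 hD0
    obtain ⟨x, hx, rfl⟩ := Finset.mem_image.mp hD0
    obtain ⟨g1, g2, g3, g4⟩ := hD x hx
    obtain ⟨hoff, hN, hreg, ht⟩ := hE x hx
    have g5 := hup x hoff (D x) g1 g2
    set Dw : ℝ := ∑ a ∈ D x, (wt a - cst Sp a) with hDw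
    have hcost0 : ∀ a ∈ D x, 0 ≤ cst Sp a := by
      intro a _
      unfold cst
      split_ifs
      · exact le_rfl
      · exact (Lu_pos _).le
    have hcost : ∀ a ∈ D x, cst Sp a ≤ wt a / 2 := fun a ha => (g3 a ha).2
    have hhr := hr_aff_nonneg x
    -- the bound for the excess
    have hDw1 : 2 * Dw ≤ 1 / q * Λ + 2 * C2 := by
      have e1 : (q - 1 / 4) * hr (aff x) ≤ Λ := hreg.trans hN
      have e2 : Dw ≤ 1 / 4 * hr (aff x) + C2 := by linarith
      have e3 : 1 / 2 * hr (aff x) ≤ 1 / q * Λ := by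
        have e4 : hr (aff x) * (q / 2) ≤ Λ := by nlinarith
        have e5 : 1 / (q : ℝ) * Λ = Λ / q := by ring
        rw [e5, le_div_iff₀ hq0]
        linarith
      linarith
    have hprod : Real.exp (∑ a ∈ D x, (-(cst Sp a) - η * wt a)) ≤ ∏ a ∈ D x, fwt2 Sp η a := by
      rw [Real.exp_sum]
      refine Finset.prod_le_prod (fun a _ => (Real.exp_pos _).le) (fun a ha => ?_)
      unfold fwt2
      rw [if_pos (g3 a ha).1]
      have := Real.exp_pos (-(cst Sp a) - η * wt a)
      linarith
    have hcl := class_bound α hα0 (D x) g1 (E.filter (fun y => D y = D x))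
      ((Λ + C1 + Dw) / q) ?_ ?_ ?_
    · refine hcl.trans ?_
      have k1 : (1 : ℝ) ≤ Real.exp (1 / q * Λ + 2 * C2) *
          Real.exp (∑ a ∈ D x, (-(cst Sp a) - η * wt a)) := by
        rw [← Real.exp_add]
        refine Real.one_le_exp ?_
        have e1 : -(2 * Dw) ≤ ∑ a ∈ D x, (-(cst Sp a) - η * wt a) := by
          rw [hDw, Finset.mul_sum, ← Finset.sum_neg_distrib]
          refine Finset.sum_le_sum fun a ha => ?_
          have e2 := hcost a ha
          have e3 := hcost0 a ha
          have e4 : η * wt a ≤ 1 / 2 * wt a := mul_le_mul_of_nonneg_right hη1 (by linarith)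
          linarith
        linarith
      have k2 : Real.exp (2 * ((Λ + C1 + Dw) / q) - ∑ a ∈ D x, (a.2.2 : ℝ) * Lu a.1) ≤
          Real.exp (2 * C1 / q + c * C1) * Real.exp (2 / q * Λ - c * t) *
          Real.exp (∑ a ∈ D x, (-(cst Sp a) - η * wt a)) := by
        rw [← Real.exp_add, ← Real.exp_add]
        refine Real.exp_le_exp.mpr ?_
        have e0 : ∑ a ∈ D x, (a.2.2 : ℝ) * Lu a.1 = ∑ a ∈ D x, wt a := rfl
        have e1 : 2 / q * Dw - ∑ a ∈ D x, wt a ≤
            ∑ a ∈ D x, (-(cst Sp a) - η * wt a) - c * Dw := by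
          rw [hDw, Finset.mul_sum, Finset.mul_sum, ← Finset.sum_sub_distrib,
            ← Finset.sum_sub_distrib]
          refine Finset.sum_le_sum fun a ha => ?_
          have e2 := hcost a ha
          have e3 : θ * (wt a / 2) ≤ θ * (wt a - cst Sp a) :=
            mul_le_mul_of_nonneg_left (by linarith) hθ0.le
          have e4 : 2 / (q : ℝ) = 1 - θ - c := by rw [hθ]; ring
          rw [e4, hη]
          linarith
        have e2 : c * (t - C1) ≤ c * Dw := mul_le_mul_of_nonneg_left (by linarith) hc0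
        have e3 : 2 * ((Λ + C1 + Dw) / q) = 2 / q * Λ + 2 * C1 / q + 2 / q * Dw := by
          field_simp
        rw [e0, e3]
        linarith
      have k3 : 0 ≤ Real.exp (∑ a ∈ D x, (-(cst Sp a) - η * wt a)) := (Real.exp_pos _).le
      have k4 : Real.exp (1 / q * Λ + 2 * C2) ≤
          Real.exp (2 * C2 + 2 * C1 / q + c * C1) * Real.exp (1 / q * Λ) := by
        rw [← Real.exp_add]
        refine Real.exp_le_exp.mpr ?_
        have : 0 ≤ 2 * C1 / q := by positivity
        have : 0 ≤ c * C1 := by positivity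
        linarith
      have k5 : Real.exp (2 * C1 / q + c * C1) * Real.exp (2 / q * Λ - c * t) ≤
          Real.exp (2 * C2 + 2 * C1 / q + c * C1) * Real.exp (2 / q * Λ - c * t) := by
        refine mul_le_mul_of_nonneg_right (Real.exp_le_exp.mpr (by linarith)) (Real.exp_pos _).le
      calc 32 * Real.exp (3 * lossK K) * (1 + Real.exp (2 * ((Λ + C1 + Dw) / q) -
            ∑ a ∈ D x, (a.2.2 : ℝ) * Lu a.1))
          ≤ C3 * ((Real.exp (2 * C2 + 2 * C1 / q + c * C1) *
            (Real.exp (1 / q * Λ) + Real.exp (2 / q * Λ - c * t))) *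
            Real.exp (∑ a ∈ D x, (-(cst Sp a) - η * wt a))) := by
            refine mul_le_mul_of_nonneg_left ?_ hC30
            have k6 := mul_le_mul_of_nonneg_right k4 k3
            have k7 := mul_le_mul_of_nonneg_right k5 k3
            have k8 := add_le_add (k1.trans k6) (k2.trans k7)
            refine k8.trans (le_of_eq ?_)
            ring
        _ ≤ C3 * ((Real.exp (2 * C2 + 2 * C1 / q + c * C1) *
            (Real.exp (1 / q * Λ) + Real.exp (2 / q * Λ - c * t))) *
            ∏ a ∈ D x, fwt2 Sp η a) := by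
            refine mul_le_mul_of_nonneg_left ?_ hC30
            exact mul_le_mul_of_nonneg_left hprod (by positivity)
        _ = _ := by ring
    · intro y hy
      exact (hE y (Finset.mem_filter.mp hy).1).1
    · intro y hy
      rw [Finset.mem_filter] at hy
      obtain ⟨_, _, _, f4⟩ := hD y hy.1
      rw [hy.2, ← hDw] at f4
      rw [le_div_iff₀ hq0]
      have := (hE y hy.1).2.1
      linarith
    · intro y hy a ha
      rw [Finset.mem_filter] at hy
      rw [← hy.2] at ha
      exact (hD y hy.1).2.1 a ha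
  have h10 : ∑ D0 ∈ E.image D, ∏ a ∈ D0, fwt2 Sp η a ≤ Real.exp F0 := by
    set U0 := E.biUnion D with hU0
    calc ∑ D0 ∈ E.image D, ∏ a ∈ D0, fwt2 Sp η a ≤ ∑ D0 ∈ U0.powerset, ∏ a ∈ D0, fwt2 Sp η a := by
          refine Finset.sum_le_sum_of_subset_of_nonneg ?_ (fun t _ _ =>
            Finset.prod_nonneg fun a _ => fwt2_nonneg Sp η a)
          intro D0 hD0
          obtain ⟨x, hx, rfl⟩ := Finset.mem_image.mp hD0
          exact Finset.mem_powerset.mpr (Finset.subset_biUnion_of_mem D hx)
      _ = ∏ a ∈ U0, (1 + fwt2 Sp η a) := (Finset.prod_one_add _).symm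
      _ ≤ ∏ a ∈ U0, Real.exp (fwt2 Sp η a) := by
          refine Finset.prod_le_prod (fun a _ => by linarith [fwt2_nonneg Sp η a]) (fun a _ => ?_)
          linarith [Real.add_one_le_exp (fwt2 Sp η a)]
      _ = Real.exp (∑ a ∈ U0, fwt2 Sp η a) := (Real.exp_sum _ _).symm
      _ ≤ Real.exp F0 := Real.exp_le_exp.mpr (hF0 U0)
  calc (E.card : ℝ) = ∑ D0 ∈ E.image D, ((E.filter (fun y => D y = D0)).card : ℝ) := h1
    _ ≤ ∑ D0 ∈ E.image D, C3 * Real.exp (2 * C2 + 2 * C1 / q + c * C1) *
        (Real.exp (1 / q * Λ) + Real.exp (2 / q * Λ - c * t)) * ∏ a ∈ D0, fwt2 Sp η a :=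
        Finset.sum_le_sum h2
    _ = C3 * Real.exp (2 * C2 + 2 * C1 / q + c * C1) *
        (Real.exp (1 / q * Λ) + Real.exp (2 / q * Λ - c * t)) *
        ∑ D0 ∈ E.image D, ∏ a ∈ D0, fwt2 Sp η a := by
        rw [Finset.mul_sum]
    _ ≤ C3 * Real.exp (2 * C2 + 2 * C1 / q + c * C1) *
        (Real.exp (1 / q * Λ) + Real.exp (2 / q * Λ - c * t)) * Real.exp F0 :=
        mul_le_mul_of_nonneg_left h10 (by positivity)
    _ = _ := by ring

end Pool.Agent.R365.SH
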