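import Mathlib
import Pool.Agent.R365.SH.Upper
import Pool.Agent.R365.QP.Ht
import Pool.Agent.Results.MP_9ec3f0_nt.AlmostAllPointsOfTheLine

set_option autoImplicit false

/-!
# The sharp upper bound, all points
-/

namespace Pool.Agent.R365.SH

open NumberField IsDedekindDomain Finset Pool.Agent.H691R3
open Pool.Agent.Results.MP_9ec3f0_nt.AlmostAllPointsOfTheLine (form localHeight counting Points
  Exceptions)

variable {K : Type} [Field K] [NumberField K]

/-- a pair as a vector -/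
def pv {K : Type} (p : K × K) : Fin 2 → K := ![p.1, p.2]

theorem form_pv (p : K × K) (x : K) :
    form (pv p) ![x, 1] = -((aff x).1 * p.2 - (aff x).2 * p.1) := by
  show p.1 * 1 - p.2 * x = -(x * p.2 - 1 * p.1)
  ring

theorem localHeight_pv (v : HeightOneSpectrum (𝓞 K)) (p : K × K) (x : K) :
    localHeight v (pv p) ![x, 1] = lamA (fv v) (aff x) p := by
  unfold localHeight lamA
  rw [form_pv]
  have h1 : FinitePlace.mk v (-((aff x).1 * p.2 - (aff x).2 * p.1)) =
      fv v ((aff x).1 * p.2 - (aff x).2 * p.1) := by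
    show fv v (-((aff x).1 * p.2 - (aff x).2 * p.1)) = _
    rw [map_neg_eq_map]
  rw [h1]
  have h2 : max (FinitePlace.mk v (pv p 0)) (FinitePlace.mk v (pv p 1)) *
      max (FinitePlace.mk v ((![x, 1] : Fin 2 → K) 0)) (FinitePlace.mk v ((![x, 1] : Fin 2 → K) 1)) =
      max (fv v (aff x).1) (fv v (aff x).2) * max (fv v p.1) (fv v p.2) := by
    show max (fv v p.1) (fv v p.2) * max (fv v x) (fv v 1) =
      max (fv v x) (fv v 1) * max (fv v p.1) (fv v p.2)
    ring
  rw [h2]

open Classical in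
theorem counting_le {q : ℕ} (T : Set (HeightOneSpectrum (𝓞 K))) (α : Fin q → K × K)
    (hα0 : ∀ l, α l ≠ 0) {x : K} (hx : Off α x) :
    counting T (fun l => pv (α l)) ![x, 1] ≤ NTc T α x := by
  have hax := aff_ne_zero x
  set Vf : Finset (HeightOneSpectrum (𝓞 K)) :=
      Finset.univ.biUnion (fun l : Fin q => (lamF_support_finite hax (hα0 l) (hx l)).toFinset)
    with hVf
  have hVf0 : ∀ v, v ∉ Vf → ∀ l, lamA (fv v) (aff x) (α l) = 0 := by
    intro v hv l
    by_contra hcon
    apply hv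
    rw [hVf, Finset.mem_biUnion]
    exact ⟨l, Finset.mem_univ l, by rw [Set.Finite.mem_toFinset]; exact hcon⟩
  have h1 : NTc T α x = ∑ v ∈ Vf.filter (fun v => v ∉ T), ∑ l : Fin q,
      min (lamA (fv v) (aff x) (α l)) (Real.log (Nv v)) := by
    unfold NTc
    simp only [← Set.mem_compl_iff]
    rw [finsum_mem_eq_sum_of_inter_support_eq (t := Vf.filter (fun v => v ∈ Tᶜ))]
    ext v
    simp only [Set.mem_compl_iff, Set.mem_inter_iff, Function.mem_support, Finset.coe_filter,
      Set.mem_ofPred_eq]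
    constructor
    · rintro ⟨hv1, hv2⟩
      refine ⟨⟨?_, hv1⟩, hv2⟩
      by_contra hcon
      apply hv2
      refine Finset.sum_eq_zero fun l _ => ?_
      rw [hVf0 v hcon l]
      exact min_eq_left (log_Nv_pos v).le
    · rintro ⟨⟨_, hv1⟩, hv2⟩
      exact ⟨hv1, hv2⟩
  have h2 : counting T (fun l => pv (α l)) ![x, 1] = ∑ v ∈ Vf.filter (fun v => v ∉ T),
      (if 0 < ∑ l : Fin q, lamA (fv v) (aff x) (α l) then Real.log (Nv v) else 0) := by
    unfold counting
    simp only [localHeight_pv]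
    rw [← Finset.sum_filter]
    have hset : {v : HeightOneSpectrum (𝓞 K) | v ∉ T ∧
        0 < ∑ l : Fin q, lamA (fv v) (aff x) (α l)} =
        (((Vf.filter (fun v => v ∉ T)).filter
          (fun v => 0 < ∑ l : Fin q, lamA (fv v) (aff x) (α l)) :
            Finset (HeightOneSpectrum (𝓞 K))) : Set (HeightOneSpectrum (𝓞 K))) := by
      ext v
      simp only [Set.mem_ofPred_eq, Finset.coe_filter, Finset.mem_filter]
      constructor
      · rintro ⟨g1, g2⟩
        refine ⟨⟨?_, g1⟩, g2⟩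
        by_contra hcon
        have : ∑ l : Fin q, lamA (fv v) (aff x) (α l) = 0 :=
          Finset.sum_eq_zero fun l _ => hVf0 v hcon l
        rw [this] at g2
        exact lt_irrefl _ g2
      · rintro ⟨⟨_, g1⟩, g2⟩
        exact ⟨g1, g2⟩
    rw [hset, finsum_mem_coe_finset]
    rfl
  rw [h1, h2]
  refine Finset.sum_le_sum fun v _ => ?_
  have hnn : ∀ l, 0 ≤ lamA (fv v) (aff x) (α l) := fun l => lamF_nonneg v hax (hα0 l) (hx l)
  split_ifs with h
  · obtain ⟨l, hl⟩ : ∃ l, 0 < lamA (fv v) (aff x) (α l) := by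
      by_contra hcon
      push Not at hcon
      have : ∑ l : Fin q, lamA (fv v) (aff x) (α l) ≤ 0 :=
        Finset.sum_nonpos fun l _ => hcon l
      linarith
    obtain ⟨m, hm⟩ := lamF_discrete v hax (hα0 l) (hx l)
    have hm0 : m ≠ 0 := by
      rintro rfl
      rw [hm] at hl
      simp at hl
    have hm1 : (1 : ℝ) ≤ m := by exact_mod_cast Nat.one_le_iff_ne_zero.2 hm0
    have hlog := log_Nv_pos v
    have h3 : Real.log (Nv v) ≤ min (lamA (fv v) (aff x) (α l)) (Real.log (Nv v)) := by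
      refine le_min ?_ le_rfl
      rw [hm]
      nlinarith
    refine h3.trans ?_
    exact Finset.single_le_sum
      (f := fun l => min (lamA (fv v) (aff x) (α l)) (Real.log (Nv v)))
      (fun l _ => le_min (hnn l) hlog.le) (Finset.mem_univ l)
  · exact Finset.sum_nonneg fun l _ => le_min (hnn l) (log_Nv_pos v).le

/-- the sharp count -/
theorem all_upper {q : ℕ} (hq : 3 ≤ q) (T : Set (HeightOneSpectrum (𝓞 K))) (hT : T.Finite)
    (α : Fin q → K × K) (hα0 : ∀ l, α l ≠ 0)
    (hα : ∀ i j, i ≠ j → wg (α i) (α j) ≠ 0)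
    (c : ℝ) (hc0 : 0 ≤ c) (hc1 : c < 1 - 2 / q) :
    ∃ C ν : ℝ, 0 < C ∧ 0 < ν ∧ ∀ Λ t : ℝ, 0 ≤ Λ → ∀ E : Finset K,
      (∀ x ∈ E, Off α x ∧ NTc T α x ≤ Λ ∧ t ≤ q * hr (aff x) - NTc T α x) →
      (E.card : ℝ) ≤ C * (Real.exp (2 / q * Λ - c * t) + Real.exp ((2 / q - ν) * Λ)) := by
  classical
  have hqR : (3 : ℝ) ≤ q := by exact_mod_cast hq
  have hq0 : (0 : ℝ) < q := by linarith
  obtain ⟨C, hC, hmain⟩ := main_upper hq T hT α hα0 hα c hc0 hc1
  obtain ⟨hline1, hline2⟩ := Pool.Agent.Results.MP_9ec3f0_nt.AlmostAllPointsOfTheLine.result K T hT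
    q hq (fun l => pv (α l)) (fun i j hij => by
      have := hα i j hij
      show (α i).1 * (α j).2 - (α i).2 * (α j).1 ≠ 0
      exact this)
  obtain ⟨⟨ν, C', hν, hC', hexc⟩, _⟩ := hline2 (1 / 4) (by norm_num)
  obtain ⟨⟨C'', hfin⟩, _⟩ := hline1 1 one_pos
  refine ⟨C + C' + 1, min ν (1 / q), by positivity, lt_min hν (by positivity), ?_⟩
  intro Λ t hΛ E hE
  set E1 := E.filter (fun x => (q - 1 / 4) * hr (aff x) ≤ NTc T α x) with hE1
  set E2 := E.filter (fun x => ¬ (q - 1 / 4) * hr (aff x) ≤ NTc T α x) with hE2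
  have hsplit : (E.card : ℝ) = (E1.card : ℝ) + (E2.card : ℝ) := by
    have := Finset.card_filter_add_card_filter_not (s := E)
      (fun x => (q - 1 / 4) * hr (aff x) ≤ NTc T α x)
    exact_mod_cast this.symm
  have h1 := hmain Λ t hΛ E1 (by
    intro x hx
    rw [hE1, Finset.mem_filter] at hx
    obtain ⟨g1, g2, g3⟩ := hE x hx.1
    exact ⟨g1, g2, hx.2, g3⟩)
  have hX : (1 : ℝ) ≤ Real.exp Λ := Real.one_le_exp hΛ
  have h2 : (E2.card : ℝ) ≤ C' * Real.exp ((2 / q - ν) * Λ) := by
    have hmk : ∀ x : K, (![x, 1] : Fin 2 → K) ≠ 0 := by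
      intro x h
      have := congrFun h 1
      simp at this
    set f : K → Projectivization K (Fin 2 → K) := fun x => Projectivization.mk K ![x, 1] (hmk x)
      with hf
    have hinj : Function.Injective f := by
      intro y y' h
      simp only [hf] at h
      rw [Projectivization.mk_eq_mk_iff'] at h
      obtain ⟨a, ha⟩ := h
      have h1 := congrFun ha 1
      have h0 := congrFun ha 0
      simp only [Pi.smul_apply, smul_eq_mul, Matrix.cons_val_one, Matrix.cons_val_zero,
        Matrix.cons_val_fin_one, mul_one] at h0 h1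
      rw [h1, one_mul] at h0
      exact h0.symm
    have hsub : ((E2.image f : Finset _) : Set (Projectivization K (Fin 2 → K))) ⊆
        Exceptions T (fun l => pv (α l)) (1 / 4) (Real.exp Λ) := by
      intro P hP
      rw [Finset.mem_coe, Finset.mem_image] at hP
      obtain ⟨x, hx, rfl⟩ := hP
      rw [hE2, Finset.mem_filter] at hx
      obtain ⟨g1, g2, _⟩ := hE x hx.1
      have g3 := hx.2
      rw [not_le] at g3
      have g4 := counting_le T α hα0 g1
      refine ⟨![x, 1], hmk x, rfl, ?_, ?_, ?_⟩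
      · intro l
        rw [form_pv]
        exact neg_ne_zero.mpr (g1 l)
      · exact Real.exp_le_exp.mpr (g4.trans g2)
      · rw [← Pool.Agent.R365.QP.hr_aff]
        exact g4.trans_lt g3
    have hEf : (Exceptions T (fun l => pv (α l)) (1 / 4) (Real.exp Λ)).Finite := by
      refine (hfin _ hX).1.subset ?_
      rintro P ⟨x, hx, e, g1, g2, _⟩
      exact ⟨x, hx, e, g1, g2⟩
    have h3 := Set.ncard_le_ncard hsub hEf
    rw [Set.ncard_coe_finset, Finset.card_image_of_injective _ hinj] at h3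
    have h4 : (E2.card : ℝ) ≤
        ((Exceptions T (fun l => pv (α l)) (1 / 4) (Real.exp Λ)).ncard : ℝ) := by
      exact_mod_cast h3
    refine h4.trans ((hexc _ hX).trans (le_of_eq ?_))
    rw [← Real.exp_mul]
    congr 2
    ring
  have hmin1 : min ν (1 / (q : ℝ)) ≤ ν := min_le_left _ _
  have hmin2 : min ν (1 / (q : ℝ)) ≤ 1 / q := min_le_right _ _
  have e1 : Real.exp (1 / q * Λ) ≤ Real.exp ((2 / q - min ν (1 / q)) * Λ) := by
    refine Real.exp_le_exp.mpr (mul_le_mul_of_nonneg_right ?_ hΛ)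
    have : 2 / (q : ℝ) = 1 / q + 1 / q := by ring
    linarith
  have e2 : Real.exp ((2 / q - ν) * Λ) ≤ Real.exp ((2 / q - min ν (1 / q)) * Λ) :=
    Real.exp_le_exp.mpr (mul_le_mul_of_nonneg_right (by linarith) hΛ)
  have e3 := Real.exp_pos (2 / q * Λ - c * t)
  have e4 := Real.exp_pos ((2 / q - min ν (1 / q)) * Λ)
  have e5 : C * Real.exp (1 / q * Λ) ≤ C * Real.exp ((2 / q - min ν (1 / q)) * Λ) :=
    mul_le_mul_of_nonneg_left e1 hC
  have e6 : C' * Real.exp ((2 / q - ν) * Λ) ≤ C' * Real.exp ((2 / q - min ν (1 / q)) * Λ) :=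
    mul_le_mul_of_nonneg_left e2 hC'.le
  rw [hsplit]
  nlinarith [mul_pos hC' e3]

end Pool.Agent.R365.SH
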