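import Mathlib
import Pool.Agent.R365.SH.All
import Pool.Agent.W221.ExcLow5

set_option autoImplicit false

/-!
# The sharp count in final form
-/

namespace Pool.Agent.R365.SH

open NumberField IsDedekindDomain Finset Pool.Agent.H691R3 Filter Topology

/-- an abstract form of the final statement: `N` is the truncated counting function, `h` the height,
`s` the exponent and `d` the degree -/
theorem final_of {ι : Type*} (Ω : Set ι) (h N : ι → ℝ) (q d s : ℝ) (hd : 0 < d)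
    (hup : ∀ c : ℝ, 0 ≤ c → c < 1 - 2 / q → ∃ C ν : ℝ, 0 < C ∧ 0 < ν ∧ ∀ Λ t : ℝ, 0 ≤ Λ →
      ∀ E : Finset ι, (∀ x ∈ E, x ∈ Ω ∧ N x ≤ Λ ∧ t ≤ q * h x - N x) →
      (E.card : ℝ) ≤ C * (Real.exp (s * (d * Λ) - c * (d * t)) + Real.exp ((s - ν) * (d * Λ))))
    (hq : 0 < 1 - 2 / q) (hq0 : 0 < q) (hh : ∀ x ∈ Ω, 0 ≤ h x)
    (hlow : ∃ c₁ X₀ : ℝ, 0 < c₁ ∧ ∀ X : ℝ, X₀ ≤ X → ∃ E : Finset ι,
      (∀ x ∈ E, x ∈ Ω ∧ N x ≤ Real.log X) ∧ c₁ * X ^ (s * d) ≤ E.card) :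
    (∀ X : ℝ, 1 ≤ X → {x | x ∈ Ω ∧ Real.exp (N x) ≤ X}.Finite) ∧
    (∃ c₁ c₂ X₀ : ℝ, 0 < c₁ ∧ ∀ X : ℝ, X₀ ≤ X →
      c₁ * X ^ (s * d) ≤ ({x | x ∈ Ω ∧ Real.exp (N x) ≤ X}.ncard : ℝ) ∧
      ({x | x ∈ Ω ∧ Real.exp (N x) ≤ X}.ncard : ℝ) ≤ c₂ * X ^ (s * d)) ∧
    (∀ c : ℝ, 0 ≤ c → c < 1 - 2 / q → ∃ C ν : ℝ, 0 < ν ∧ ∀ X t : ℝ, 1 ≤ X → 0 ≤ t →
      ({x | (x ∈ Ω ∧ Real.exp (N x) ≤ X) ∧ N x + t ≤ q * h x}.ncard : ℝ) ≤
        C * (Real.exp (-(c * d * t)) + X ^ (-ν)) * X ^ (s * d)) ∧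
    (∀ ψ : ℝ → ℝ, Tendsto ψ atTop atTop →
      Tendsto (fun X : ℝ =>
        ({x | (x ∈ Ω ∧ Real.exp (N x) ≤ X) ∧ N x + ψ X ≤ q * h x}.ncard : ℝ) /
          ({x | x ∈ Ω ∧ Real.exp (N x) ≤ X}.ncard : ℝ)) atTop (𝓝 0)) := by
  classical
  -- all points
  obtain ⟨C, ν, hC, hν, hCν⟩ := hup 0 le_rfl hq
  have hb : ∀ X : ℝ, 1 ≤ X → ∀ E : Finset ι, (E : Set ι) ⊆ {x | x ∈ Ω ∧ Real.exp (N x) ≤ X} →
      (E.card : ℝ) ≤ 2 * C * X ^ (s * d) := by
    intro X hX E hE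
    have hX0 : 0 < X := by linarith
    have hlog : 0 ≤ Real.log X := Real.log_nonneg hX
    have h1 := hCν (Real.log X) (-Real.log X) hlog E (by
      intro x hx
      obtain ⟨g1, g2⟩ := hE hx
      rw [← Real.le_log_iff_exp_le hX0] at g2
      refine ⟨g1, g2, ?_⟩
      have := mul_nonneg hq0.le (hh x g1)
      linarith)
    rw [zero_mul, sub_zero] at h1
    have e1 : Real.exp (s * (d * Real.log X)) = X ^ (s * d) := by
      rw [Real.rpow_def_of_pos hX0]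
      congr 1
      ring
    have e2 : Real.exp ((s - ν) * (d * Real.log X)) ≤ X ^ (s * d) := by
      rw [← e1]
      refine Real.exp_le_exp.mpr (mul_le_mul_of_nonneg_right (by linarith) (by positivity))
    rw [e1] at h1
    have := mul_le_mul_of_nonneg_left e2 hC.le
    linarith
  have hfin : ∀ X : ℝ, 1 ≤ X → {x | x ∈ Ω ∧ Real.exp (N x) ≤ X}.Finite := by
    intro X hX
    by_contra hinf
    obtain ⟨G, hGV, hGc⟩ := Set.Infinite.exists_subset_card_eq hinf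
      (⌊2 * C * X ^ (s * d)⌋₊ + 1)
    have h1 := hb X hX G hGV
    have h2 := Nat.lt_floor_add_one (2 * C * X ^ (s * d))
    rw [hGc] at h1
    push_cast at h1
    linarith
  have hcard : ∀ X : ℝ, 1 ≤ X →
      ({x | x ∈ Ω ∧ Real.exp (N x) ≤ X}.ncard : ℝ) ≤ 2 * C * X ^ (s * d) := by
    intro X hX
    rw [Set.ncard_eq_toFinset_card _ (hfin X hX)]
    exact hb X hX _ (by rw [Set.Finite.coe_toFinset])
  obtain ⟨c₁, X₀, hc₁, hlow⟩ := hlow
  have hlo : ∀ X : ℝ, max 1 X₀ ≤ X →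
      c₁ * X ^ (s * d) ≤ ({x | x ∈ Ω ∧ Real.exp (N x) ≤ X}.ncard : ℝ) := by
    intro X hX
    have hX1 : 1 ≤ X := (le_max_left _ _).trans hX
    have hX0 : 0 < X := by linarith
    obtain ⟨E, hE, hc⟩ := hlow X ((le_max_right _ _).trans hX)
    refine hc.trans ?_
    have h1 := Set.ncard_le_ncard (s := (E : Set ι)) (fun x hx => by
      obtain ⟨g1, g2⟩ := hE x hx
      rw [Real.le_log_iff_exp_le hX0] at g2
      exact ⟨g1, g2⟩) (hfin X hX1)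
    rw [Set.ncard_coe_finset] at h1
    exact_mod_cast h1
  have htail : ∀ c : ℝ, 0 ≤ c → c < 1 - 2 / q → ∃ C ν : ℝ, 0 < C ∧ 0 < ν ∧ ∀ X t : ℝ, 1 ≤ X →
      ({x | (x ∈ Ω ∧ Real.exp (N x) ≤ X) ∧ N x + t ≤ q * h x}.ncard : ℝ) ≤
        C * (Real.exp (-(c * d * t)) + X ^ (-ν)) * X ^ (s * d) := by
    intro c hc0 hc1
    obtain ⟨C, ν, hC, hν, hCν⟩ := hup c hc0 hc1
    refine ⟨C, ν * d, hC, by positivity, fun X t hX => ?_⟩
    have hX0 : 0 < X := by linarith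
    have hlog : 0 ≤ Real.log X := Real.log_nonneg hX
    have hf : {x | (x ∈ Ω ∧ Real.exp (N x) ≤ X) ∧ N x + t ≤ q * h x}.Finite :=
      (hfin X hX).subset fun x hx => hx.1
    rw [Set.ncard_eq_toFinset_card _ hf]
    refine (hCν (Real.log X) t hlog _ ?_).trans (le_of_eq ?_)
    · intro x hx
      rw [Set.Finite.mem_toFinset] at hx
      obtain ⟨⟨g1, g2⟩, g3⟩ := hx
      rw [← Real.le_log_iff_exp_le hX0] at g2
      exact ⟨g1, g2, by linarith⟩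
    · rw [Real.rpow_def_of_pos hX0, Real.rpow_def_of_pos hX0, mul_assoc, add_mul, ← Real.exp_add,
        ← Real.exp_add]
      congr 3
      · ring
      · ring
  refine ⟨hfin, ⟨c₁, 2 * C, max 1 X₀, hc₁, fun X hX => ⟨hlo X hX, ?_⟩⟩, ?_, ?_⟩
  · exact hcard X ((le_max_left _ _).trans hX)
  · intro c hc0 hc1
    obtain ⟨C, ν, _, hν, h⟩ := htail c hc0 hc1
    exact ⟨C, ν, hν, fun X t hX _ => h X t hX⟩
  · intro ψ hψ
    set c : ℝ := (1 - 2 / q) / 2 with hc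
    have hc0 : 0 < c := by rw [hc]; linarith
    obtain ⟨C', ν', hC', hν', h⟩ := htail c hc0.le (by rw [hc]; linarith)
    have hlim : Tendsto (fun X : ℝ => C' / c₁ * (Real.exp (-(c * d * ψ X)) + X ^ (-ν')))
        atTop (𝓝 0) := by
      have h1 : Tendsto (fun X : ℝ => Real.exp (-(c * d * ψ X))) atTop (𝓝 0) := by
        refine Real.tendsto_exp_neg_atTop_nhds_zero.comp ?_
        exact hψ.const_mul_atTop (by positivity)
      have h2 : Tendsto (fun X : ℝ => X ^ (-ν')) atTop (𝓝 0) :=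
        tendsto_rpow_neg_atTop hν'
      have h3 := (h1.add h2).const_mul (C' / c₁)
      rwa [add_zero, mul_zero] at h3
    refine squeeze_zero' (Eventually.of_forall fun X => by positivity) ?_ hlim
    filter_upwards [eventually_ge_atTop (max 1 X₀)] with X hX
    have hX1 : 1 ≤ X := (le_max_left _ _).trans hX
    have hX0 : 0 < X := by linarith
    have hp : 0 < X ^ (s * d) := Real.rpow_pos_of_pos hX0 _
    have g1 := hlo X hX
    have g2 := h X (ψ X) hX1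
    have g3 : 0 < c₁ * X ^ (s * d) := by positivity
    have g4 : 0 < ({x | x ∈ Ω ∧ Real.exp (N x) ≤ X}.ncard : ℝ) := g3.trans_le g1
    rw [div_le_iff₀ g4]
    refine g2.trans ?_
    have g5 : 0 ≤ C' / c₁ * (Real.exp (-(c * d * ψ X)) + X ^ (-ν')) := by positivity
    have g6 := mul_le_mul_of_nonneg_left g1 g5
    refine le_trans (le_of_eq ?_) g6
    field_simp

variable {K : Type} [Field K] [NumberField K]

/-- the lower bound -/
theorem low_all {q : ℕ} (hq : 3 ≤ q) (T : Set (HeightOneSpectrum (𝓞 K)))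
    (α : Fin q → K × K) (hα0 : ∀ l, α l ≠ 0)
    (hα : ∀ i j, i ≠ j → wg (α i) (α j) ≠ 0) :
    ∃ c₁ X₀ : ℝ, 0 < c₁ ∧ 1 ≤ X₀ ∧ ∀ X : ℝ, X₀ ≤ X → ∃ E : Finset K,
      (∀ x ∈ E, Off α x ∧ NTc T α x ≤ Module.finrank ℚ K * Real.log X ∧
        hr (aff x) ≤ Module.finrank ℚ K * (1 / q * Real.log X)) ∧
      c₁ * X ^ (2 / (q : ℝ) * Module.finrank ℚ K) ≤ E.card := by
  have hqR : (3 : ℝ) ≤ q := by exact_mod_cast hq
  have hq0 : (0 : ℝ) < q := by linarith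
  obtain ⟨C, B0, hC, hB0, h⟩ := Pool.Agent.W221.Exc.low (K := K) T α hα0 hα (by omega) 0 0
    le_rfl (by norm_num)
  have hB0' : 0 < B0 := by linarith
  refine ⟨C, max 1 (B0 ^ (q : ℝ)), hC, le_max_left _ _, fun X hX => ?_⟩
  have hX1 : 1 ≤ X := (le_max_left _ _).trans hX
  have hX0 : 0 < X := by linarith
  have hB : B0 ≤ X ^ (1 / (q : ℝ)) := by
    have h1 : B0 ^ (q : ℝ) ≤ X := (le_max_right _ _).trans hX
    have h2 : (B0 ^ (q : ℝ)) ^ (1 / (q : ℝ)) ≤ X ^ (1 / (q : ℝ)) :=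
      Real.rpow_le_rpow (by positivity) h1 (by positivity)
    rwa [← Real.rpow_mul hB0'.le, mul_one_div_cancel hq0.ne', Real.rpow_one] at h2
  obtain ⟨E, hE, hcard⟩ := h _ hB
  have hlogB : Real.log (X ^ (1 / (q : ℝ))) = 1 / q * Real.log X := Real.log_rpow hX0 _
  refine ⟨E, fun x hx => ?_, ?_⟩
  · obtain ⟨h1, h2, h3⟩ := hE x hx
    rw [hlogB] at h3
    refine ⟨h1, ?_, h3⟩
    rw [sub_zero, add_zero] at h2
    have h4 : (q : ℝ) * hr (aff x) ≤ q * (Module.finrank ℚ K * (1 / q * Real.log X)) :=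
      mul_le_mul_of_nonneg_left h3 hq0.le
    have h5 : (q : ℝ) * (Module.finrank ℚ K * (1 / q * Real.log X)) =
        Module.finrank ℚ K * Real.log X := by field_simp
    rw [h5] at h4
    exact h2.le.trans h4
  · refine le_trans (le_of_eq ?_) hcard
    rw [← Real.rpow_mul hX0.le]
    congr 2
    field_simp
    ring

end Pool.Agent.R365.SH
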