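import Mathlib
import Pool.Agent.R365.SH.Final
import Pool.Agent.R365.RC.Three

set_option autoImplicit false

/-!
# The three points `0`, `-1`, `∞`
-/

namespace Pool.Agent.R365.SH

open NumberField IsDedekindDomain Height Finset Pool.Agent.H691R3 Pool.Agent.W223.AK
open Pool.Agent.R365.QP Pool.Agent.R365.RC

variable {K : Type} [Field K] [NumberField K]

theorem α3_ne (l : Fin 3) : α3 K l ≠ 0 := by
  intro h
  fin_cases l
  · exact one_ne_zero (congrArg Prod.snd h)
  · exact one_ne_zero (congrArg Prod.fst h)
  · exact one_ne_zero (congrArg Prod.snd h)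

theorem α3_wg : ∀ i j, i ≠ j → wg (α3 K i) (α3 K j) ≠ 0 := by
  intro i j hij
  fin_cases i <;> fin_cases j <;> first | exact absurd rfl hij | (simp [α3, wg])

theorem off_iff (x : K) : Off (α3 K) x ↔ Pt x := by
  constructor
  · intro hx
    constructor
    · have := hx 0
      intro h
      apply this
      rw [h]
      show (0 : K) * 1 - 1 * 0 = 0
      ring
    · have := hx 2
      intro h
      apply this
      show x * 1 - 1 * (-1) = 0
      linear_combination h
  · intro hx l
    fin_cases l
    · show x * 1 - 1 * 0 ≠ 0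
      rw [mul_one, mul_zero, sub_zero]
      exact hx.1
    · show x * 0 - 1 * 1 ≠ 0
      rw [mul_zero, mul_one, zero_sub]
      exact neg_ne_zero.mpr one_ne_zero
    · show x * 1 - 1 * (-1) ≠ 0
      intro h
      apply hx.2
      linear_combination h

/-- the radical is the truncated counting function -/
theorem R3_eq_NTc (T : Set (Pr K)) (hT : T.Finite) {x : K} (hx : Off (α3 K) x) :
    R3 T (z3 x) = NTc T (α3 K) x := by
  classical
  refine le_antisymm (R3_le_NTc T hT hx) ?_
  have hmem : ∀ v, v ∈ hT.toFinset ↔ v ∈ T := fun v => Set.Finite.mem_toFinset _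
  obtain ⟨P, hP⟩ := exists_isP hT.toFinset ((off_iff x).mp hx)
  rw [R3_eq hmem (x := z3 x) (by rw [z3_one]; exact one_ne_zero)
    (z3_sum _) (by rw [z3_div]; exact hP), NTc_eq T α3_ne hx, Fin.sum_univ_three]
  have key : ∀ l : Fin 3, (∀ v : Pr K, fv v ((aff x).1 * (α3 K l).2 - (aff x).2 * (α3 K l).1) =
        fv v (L l x)) →
      (∀ v : Pr K, max (fv v (α3 K l).1) (fv v (α3 K l).2) = 1) →
      n1 T (α3 K l) x ≤ rl (P l) := by
    intro l h1 h2
    set V : Finset (Pr K) :=
      (lamF_support_finite (aff_ne_zero x) (α3_ne l) (hx l)).toFinset ∪ (P l).support with hV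
    rw [n1_eq T (α3 K l) x V fun v hv => by
      by_contra hne
      apply hv
      rw [hV, Finset.mem_union]
      left
      rw [Set.Finite.mem_toFinset]
      exact hne]
    have h3 : ∀ v ∈ V.filter (fun v => v ∉ T),
        min (lamA (fv v) (aff x) (α3 K l)) (Real.log (Nv v)) ≤
          if v ∈ (P l).support then Real.log (Nv v) else 0 := by
      intro v hv
      rw [Finset.mem_filter] at hv
      have hvS : v ∉ hT.toFinset := fun h => hv.2 ((hmem v).mp h)
      split_ifs with h4
      · exact min_le_right _ _
      · rw [Finsupp.notMem_support_iff] at h4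
        have h5 := hP.val l v hvS
        rw [h4, Nat.cast_zero, neg_zero, zpow_zero, mul_one] at h5
        refine (min_le_left _ _).trans ?_
        unfold lamA
        rw [h2 v, h1 v, h5, mul_one]
        have h6 : max (fv v (aff x).1) (fv v (aff x).2) = max (fv v x) 1 := by
          show max (fv v x) (fv v 1) = _
          rw [map_one]
        rw [h6, div_self (lt_max_of_lt_right one_pos).ne', Real.log_one]
    refine (Finset.sum_le_sum h3).trans ?_
    rw [← Finset.sum_filter]
    unfold rl
    refine Finset.sum_le_sum_of_subset_of_nonneg ?_ fun v _ _ => (log_Nv_pos v).le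
    intro v hv
    exact (Finset.mem_filter.mp hv).2
  have k0 := key 0 (fun v => by
    rw [L_zero]
    have : (aff x).1 * (α3 K 0).2 - (aff x).2 * (α3 K 0).1 = x := by
      show x * 1 - 1 * 0 = x
      ring
    rw [this]) (fun v => by
    show max (fv v 0) (fv v 1) = 1
    rw [map_zero, map_one]
    exact max_eq_right zero_le_one)
  have k1 := key 1 (fun v => by
    rw [L_one]
    have : (aff x).1 * (α3 K 1).2 - (aff x).2 * (α3 K 1).1 = -1 := by
      show x * 0 - 1 * 1 = -1
      ring
    rw [this, map_neg_eq_map]) (fun v => by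
    show max (fv v 1) (fv v 0) = 1
    rw [map_zero, map_one]
    exact max_eq_left zero_le_one)
  have k2 := key 2 (fun v => by
    rw [L_two]
    have : (aff x).1 * (α3 K 2).2 - (aff x).2 * (α3 K 2).1 = x + 1 := by
      show x * 1 - 1 * (-1) = x + 1
      ring
    rw [this]) (fun v => by
    show max (fv v (-1)) (fv v 1) = 1
    rw [map_neg_eq_map, map_one]
    exact max_self _)
  linarith

end Pool.Agent.R365.SH
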