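import Mathlib
import Pool.Agent.Results.MP_a793bb_nt.SharpCount
import Pool.Agent.Y728.AK.Bridge

set_option autoImplicit false

/-!
# The sharp count for finite sets of numbers
-/

namespace Pool.Agent.R365.SH

open NumberField IsDedekindDomain Pool.Agent.H691R3 Pool.Agent.TH876.Loc
open Pool.Agent.Results.MP_a793bb_nt.SharpCount (Points Exceptions height rad)

variable {K : Type} [Field K] [NumberField K]

/-- the coordinates of a number -/
def w3 (y : K) : Fin 3 → K := ![y, 1, -(y + 1)]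

theorem w3_ne (y : K) : w3 y ≠ 0 := by
  intro h
  have := congrFun h 1
  exact one_ne_zero this

theorem w3_sum (y : K) : w3 y 0 + w3 y 1 + w3 y 2 = 0 := by
  show y + 1 + -(y + 1) = 0
  ring

theorem w3_prod {y : K} (hy : Pt y) : w3 y 0 * w3 y 1 * w3 y 2 ≠ 0 := by
  show y * 1 * -(y + 1) ≠ 0
  exact mul_ne_zero (mul_ne_zero hy.1 one_ne_zero) (neg_ne_zero.mpr hy.2)

theorem w3_div (y : K) : w3 y 0 / w3 y 1 = y := by
  show y / 1 = y
  exact div_one y

theorem w3_height {y : K} (hy : Pt y) : (Module.finrank ℚ K : ℝ) * height (w3 y) = hgt y := by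
  have h := Pool.Agent.Y728.AK.height3_eq (w3_sum y) (w3_prod hy)
  rw [w3_div] at h
  exact h

open Classical in
theorem w3_rad {y : K} (hy : Pt y) :
    (Module.finrank ℚ K : ℝ) * rad ∅ (w3 y) = Real.log (nn (sp y)) := by
  have h := Pool.Agent.Y728.AK.radT_eq (∅ : Finset (Pr K)) (w3_sum y) (w3_prod hy)
  rw [w3_div, Finset.sdiff_empty, Finset.coe_empty] at h
  exact h

theorem w3_inj : Function.Injective (fun y : K => Projectivization.mk K (w3 y) (w3_ne y)) := by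
  intro y y' h
  simp only at h
  rw [Projectivization.mk_eq_mk_iff'] at h
  obtain ⟨a, ha⟩ := h
  have h1 : a * 1 = (1 : K) := congrFun ha 1
  have h0 : a * y' = y := congrFun ha 0
  rw [mul_one] at h1
  rw [h1, one_mul] at h0
  exact h0.symm

theorem exp_rad_le {y : K} (hy : Pt y) {X : ℝ} (hX : 1 ≤ X) (h : nn (sp y) ≤ X) :
    Real.exp (rad ∅ (w3 y)) ≤ X ^ (1 / (Module.finrank ℚ K : ℝ)) := by
  have hd : (0 : ℝ) < Module.finrank ℚ K := by exact_mod_cast (Module.finrank_pos (R := ℚ) (M := K))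
  have hX0 : 0 < X := by linarith
  have h1 := w3_rad hy
  have h2 : Real.log (nn (sp y)) ≤ Real.log X := Real.log_le_log (nn_pos _) h
  rw [Real.rpow_def_of_pos hX0]
  refine Real.exp_le_exp.mpr ?_
  rw [← h1] at h2
  rw [mul_one_div, le_div_iff₀ hd]
  linarith

open Classical in
/-- the upper bound -/
theorem aff_upper (K : Type) [Field K] [NumberField K] : ∃ C : ℝ, 0 < C ∧ ∀ X : ℝ, 1 ≤ X →
    ∀ F : Finset K, (∀ x ∈ F, Pt x ∧ nn (sp x) ≤ X) → (F.card : ℝ) ≤ C * X ^ (2 / 3 : ℝ) := by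
  have hd : (0 : ℝ) < Module.finrank ℚ K := by exact_mod_cast (Module.finrank_pos (R := ℚ) (M := K))
  obtain ⟨hfin, -, htail, -⟩ :=
    Pool.Agent.Results.MP_a793bb_nt.SharpCount.result K ∅ Set.finite_empty
  obtain ⟨C, ν, hν, h⟩ := htail 0 le_rfl (by norm_num)
  obtain ⟨c, hc⟩ : ∃ c : ℝ, c = |C| := ⟨_, rfl⟩
  refine ⟨2 * c + 1, by rw [hc]; positivity, fun X hX F hF => ?_⟩
  have hX0 : 0 < X := by linarith
  set Y : ℝ := X ^ (1 / (Module.finrank ℚ K : ℝ)) with hY
  have hY1 : 1 ≤ Y := Real.one_le_rpow hX (by positivity)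
  have hY0 : 0 < Y := by linarith
  have hsub : ((F.image fun y => Projectivization.mk K (w3 y) (w3_ne y) : Finset _) :
      Set (Projectivization K (Fin 3 → K))) ⊆ Exceptions ∅ Y 0 := by
    intro P hP
    rw [Finset.mem_coe, Finset.mem_image] at hP
    obtain ⟨y, hy, rfl⟩ := hP
    obtain ⟨h1, h2⟩ := hF y hy
    refine ⟨w3 y, w3_ne y, rfl, w3_sum y, w3_prod h1, exp_rad_le h1 hX h2, ?_⟩
    have h3 := w3_height h1
    have h4 := w3_rad h1
    have h5 := Pool.Agent.Y728.AK.rad_le_three h1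
    rw [← h3, ← h4] at h5
    rw [add_zero]
    have h6 : (Module.finrank ℚ K : ℝ) * rad ∅ (w3 y) ≤
      (Module.finrank ℚ K : ℝ) * (3 * height (w3 y)) := by linarith
    exact le_of_mul_le_mul_left h6 hd
  have hE : (Exceptions (K := K) ∅ Y 0).Finite := by
    refine (hfin Y hY1).subset ?_
    rintro P ⟨x, hx, g1, g2, g3, g4, _⟩
    exact ⟨x, hx, g1, g2, g3, g4⟩
  have h1 := Set.ncard_le_ncard hsub hE
  rw [Set.ncard_coe_finset, Finset.card_image_of_injective _ w3_inj] at h1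
  have h2 := h Y 0 hY1 le_rfl
  have h3 : (F.card : ℝ) ≤ ((Exceptions (K := K) ∅ Y 0).ncard : ℝ) := by exact_mod_cast h1
  have h4 : Y ^ (2 / (3 : ℝ) * Module.finrank ℚ K) = X ^ (2 / 3 : ℝ) := by
    rw [hY, ← Real.rpow_mul hX0.le]
    congr 1
    field_simp
  rw [h4, zero_mul, zero_mul, neg_zero, Real.exp_zero] at h2
  have h5 : Y ^ (-ν) ≤ 1 := Real.rpow_le_one_of_one_le_of_nonpos hY1 (by linarith)
  have h6 : 0 < Y ^ (-ν) := Real.rpow_pos_of_pos hY0 _
  have h7 : C * (1 + Y ^ (-ν)) ≤ 2 * c := by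
    have : C ≤ c := by rw [hc]; exact le_abs_self _
    have h0 : 0 ≤ c := by rw [hc]; exact abs_nonneg _
    nlinarith
  have h8 : 0 ≤ X ^ (2 / 3 : ℝ) := Real.rpow_nonneg hX0.le _
  calc (F.card : ℝ) ≤ C * (1 + Y ^ (-ν)) * X ^ (2 / 3 : ℝ) := h3.trans h2
    _ ≤ 2 * c * X ^ (2 / 3 : ℝ) := mul_le_mul_of_nonneg_right h7 h8
    _ ≤ (2 * c + 1) * X ^ (2 / 3 : ℝ) := mul_le_mul_of_nonneg_right (by linarith) h8

open Classical in
/-- the tail -/
theorem aff_tail (K : Type) [Field K] [NumberField K] (c : ℝ) (hc0 : 0 ≤ c) (hc1 : c < 1 / 3) :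
    ∃ C ν : ℝ, 0 < C ∧ 0 < ν ∧ ∀ X t : ℝ, 1 ≤ X → 0 ≤ t → ∀ F : Finset K,
      (∀ x ∈ F, Pt x ∧ nn (sp x) ≤ X ∧ Real.log (nn (sp x)) + t ≤ 3 * hgt x) →
      (F.card : ℝ) ≤ C * (Real.exp (-(c * t)) + X ^ (-ν)) * X ^ (2 / 3 : ℝ) := by
  have hd : (0 : ℝ) < Module.finrank ℚ K := by exact_mod_cast (Module.finrank_pos (R := ℚ) (M := K))
  obtain ⟨hfin, -, htail, -⟩ :=
    Pool.Agent.Results.MP_a793bb_nt.SharpCount.result K ∅ Set.finite_empty
  obtain ⟨C, ν, hν, h⟩ := htail c hc0 (by linarith)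
  refine ⟨|C| + 1, ν / Module.finrank ℚ K, by positivity, by positivity, fun X t hX ht F hF => ?_⟩
  have hX0 : 0 < X := by linarith
  set Y : ℝ := X ^ (1 / (Module.finrank ℚ K : ℝ)) with hY
  have hY1 : 1 ≤ Y := Real.one_le_rpow hX (by positivity)
  have hY0 : 0 < Y := by linarith
  have hsub : ((F.image fun y => Projectivization.mk K (w3 y) (w3_ne y) : Finset _) :
      Set (Projectivization K (Fin 3 → K))) ⊆ Exceptions ∅ Y (t / Module.finrank ℚ K) := by
    intro P hP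
    rw [Finset.mem_coe, Finset.mem_image] at hP
    obtain ⟨y, hy, rfl⟩ := hP
    obtain ⟨h1, h2, h2'⟩ := hF y hy
    refine ⟨w3 y, w3_ne y, rfl, w3_sum y, w3_prod h1, exp_rad_le h1 hX h2, ?_⟩
    have h3 := w3_height h1
    have h4 := w3_rad h1
    rw [← h3, ← h4] at h2'
    have h5 : (Module.finrank ℚ K : ℝ) * (t / Module.finrank ℚ K) = t := by field_simp
    have h6 : (Module.finrank ℚ K : ℝ) * (rad ∅ (w3 y) + t / Module.finrank ℚ K) ≤
      (Module.finrank ℚ K : ℝ) * (3 * height (w3 y)) := by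
      rw [mul_add, h5]
      linarith
    exact le_of_mul_le_mul_left h6 hd
  have hE : (Exceptions (K := K) ∅ Y (t / Module.finrank ℚ K)).Finite := by
    refine (hfin Y hY1).subset ?_
    rintro P ⟨x, hx, g1, g2, g3, g4, _⟩
    exact ⟨x, hx, g1, g2, g3, g4⟩
  have h1 := Set.ncard_le_ncard hsub hE
  rw [Set.ncard_coe_finset, Finset.card_image_of_injective _ w3_inj] at h1
  have h2 := h Y (t / Module.finrank ℚ K) hY1 (by positivity)
  have h3 : (F.card : ℝ) ≤ ((Exceptions (K := K) ∅ Y (t / Module.finrank ℚ K)).ncard : ℝ) := by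
    exact_mod_cast h1
  have h4 : Y ^ (2 / (3 : ℝ) * Module.finrank ℚ K) = X ^ (2 / 3 : ℝ) := by
    rw [hY, ← Real.rpow_mul hX0.le]
    congr 1
    field_simp
  have h5 : c * (Module.finrank ℚ K : ℝ) * (t / Module.finrank ℚ K) = c * t := by field_simp
  have h6 : Y ^ (-ν) = X ^ (-(ν / Module.finrank ℚ K)) := by
    rw [hY, ← Real.rpow_mul hX0.le]
    congr 1
    ring
  rw [h4, h5, h6] at h2
  refine h3.trans (h2.trans ?_)
  have h7 : 0 < Real.exp (-(c * t)) := Real.exp_pos _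
  have h8 : 0 < X ^ (-(ν / Module.finrank ℚ K)) := Real.rpow_pos_of_pos hX0 _
  have h9 : 0 < X ^ (2 / 3 : ℝ) := Real.rpow_pos_of_pos hX0 _
  refine mul_le_mul_of_nonneg_right (mul_le_mul_of_nonneg_right ?_ (by positivity)) h9.le
  have := le_abs_self C
  linarith

open Classical in
/-- the lower bound -/
theorem aff_lower (K : Type) [Field K] [NumberField K] : ∃ c X0 : ℝ, 0 < c ∧ ∀ X : ℝ, X0 ≤ X →
    ∃ F : Finset K, (∀ x ∈ F, Pt x ∧ nn (sp x) ≤ X) ∧ c * X ^ (2 / 3 : ℝ) ≤ F.card := by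
  have hd : (0 : ℝ) < Module.finrank ℚ K := by exact_mod_cast (Module.finrank_pos (R := ℚ) (M := K))
  obtain ⟨hfin, ⟨c₁, c₂, X₀, hc₁, hlow⟩, -, -⟩ :=
    Pool.Agent.Results.MP_a793bb_nt.SharpCount.result K ∅ Set.finite_empty
  refine ⟨c₁, (max 1 X₀) ^ (Module.finrank ℚ K : ℝ), hc₁, fun X hX => ?_⟩
  have hm : 0 < max 1 X₀ := lt_max_of_lt_left one_pos
  have hm1 : 1 ≤ (max 1 X₀) ^ (Module.finrank ℚ K : ℝ) :=
    Real.one_le_rpow (le_max_left _ _) hd.le
  have hX1 : 1 ≤ X := hm1.trans hX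
  have hX0 : 0 < X := by linarith
  set Y : ℝ := X ^ (1 / (Module.finrank ℚ K : ℝ)) with hY
  have hY1 : 1 ≤ Y := Real.one_le_rpow hX1 (by positivity)
  have hYX : X₀ ≤ Y := by
    have h1 := Real.rpow_le_rpow (by positivity) hX (by positivity :
      (0 : ℝ) ≤ 1 / (Module.finrank ℚ K : ℝ))
    rw [← Real.rpow_mul hm.le, mul_one_div_cancel hd.ne', Real.rpow_one] at h1
    exact (le_max_right _ _).trans h1
  have h1 := (hlow Y hYX).1
  have h4 : Y ^ (2 / (3 : ℝ) * Module.finrank ℚ K) = X ^ (2 / 3 : ℝ) := by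
    rw [hY, ← Real.rpow_mul hX0.le]
    congr 1
    field_simp
  rw [h4] at h1
  -- choose numbers
  have hpt : ∀ P ∈ Points (K := K) ∅ Y, ∃ y : K, (Pt y ∧ nn (sp y) ≤ X) ∧
      P = Projectivization.mk K (w3 y) (w3_ne y) := by
    rintro P ⟨x, hx, rfl, hs, hne, hr⟩
    have g1 : x 1 ≠ 0 := fun h => hne (by rw [h]; ring)
    have g0 : x 0 ≠ 0 := fun h => hne (by rw [h]; ring)
    have g2 : x 2 ≠ 0 := fun h => hne (by rw [h]; ring)
    have hpty : Pt (x 0 / x 1) := by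
      refine ⟨div_ne_zero g0 g1, ?_⟩
      intro h
      apply g2
      have h4 : x 0 / x 1 * x 1 = x 0 := div_mul_cancel₀ _ g1
      have h5 : x 0 / x 1 = -1 := by linear_combination h
      rw [h5] at h4
      linear_combination hs + h4
    refine ⟨x 0 / x 1, ⟨hpty, ?_⟩, ?_⟩
    · have h5 := Pool.Agent.Y728.AK.radT_eq (∅ : Finset (Pr K)) hs hne
      rw [Finset.sdiff_empty, Finset.coe_empty] at h5
      have h6 : rad ∅ x ≤ Real.log Y := (Real.le_log_iff_exp_le (by linarith)).2 hr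
      rw [hY, Real.log_rpow hX0] at h6
      have h7 : (Module.finrank ℚ K : ℝ) * rad ∅ x ≤ Real.log X := by
        have := mul_le_mul_of_nonneg_left h6 hd.le
        rwa [← mul_assoc, mul_one_div_cancel hd.ne', one_mul] at this
      have h8 : Real.log (nn (sp (x 0 / x 1))) ≤ Real.log X := by
        rw [← h5]
        exact h7
      exact (Real.log_le_log_iff (nn_pos _) hX0).1 h8
    · rw [Projectivization.mk_eq_mk_iff']
      refine ⟨x 1, ?_⟩
      funext i
      rw [Pi.smul_apply, smul_eq_mul]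
      fin_cases i
      · show x 1 * (x 0 / x 1) = x 0
        field_simp
      · show x 1 * 1 = x 1
        ring
      · show x 1 * -(x 0 / x 1 + 1) = x 2
        field_simp
        linear_combination -hs
  have hfinY := hfin Y hY1
  refine ⟨hfinY.toFinset.attach.image (fun P => (hpt P.1 (hfinY.mem_toFinset.1 P.2)).choose),
    ?_, ?_⟩
  · intro x hx
    rw [Finset.mem_image] at hx
    obtain ⟨P, -, rfl⟩ := hx
    exact (hpt P.1 (hfinY.mem_toFinset.1 P.2)).choose_spec.1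
  · rw [Finset.card_image_of_injective, Finset.card_attach, ← Set.ncard_eq_toFinset_card _ hfinY]
    · exact h1
    · intro P Q h
      have e1 := (hpt P.1 (hfinY.mem_toFinset.1 P.2)).choose_spec.2
      have e2 := (hpt Q.1 (hfinY.mem_toFinset.1 Q.2)).choose_spec.2
      apply Subtype.ext
      rw [e1, e2]
      simp only at h
      congr 1
      rw [h]

end Pool.Agent.R365.SH
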